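import Mathlib
import Pool.Agent.W261.QJ.Stm

/-!
# QJ-LOOP: external rays land, the Caratheodory loop
-/

set_option autoImplicit false
open Filter Topology Set Metric

namespace Pool.Agent.W253.QJ

open Pool.Agent.W261.QJ

/-! ### the function `ee` -/

theorem norm_ee (t : ℝ) : ‖ee t‖ = 1 := by
  have h : (2 * Real.pi * t * Complex.I : ℂ) = ((2 * Real.pi * t : ℝ) : ℂ) * Complex.I := by
    push_cast
    ring
  unfold ee
  rw [h, Complex.norm_exp_ofReal_mul_I]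

theorem ee_add_one (t : ℝ) : ee (t + 1) = ee t := by
  unfold ee
  have h : (2 * Real.pi * ((t + 1 : ℝ) : ℂ) * Complex.I : ℂ) =
      2 * Real.pi * t * Complex.I + 2 * Real.pi * Complex.I := by
    push_cast
    ring
  rw [h, Complex.exp_add, Complex.exp_two_pi_mul_I, mul_one]

theorem ee_pow (t : ℝ) (n : ℕ) : ee t ^ n = ee (n * t) := by
  unfold ee
  rw [← Complex.exp_nat_mul]
  congr 1
  push_cast
  ring

theorem cont_ee : Continuous ee := by
  unfold ee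
  fun_prop

theorem polar (w : ℂ) : (‖w‖ : ℂ) * ee (w.arg / (2 * Real.pi)) = w := by
  have h : (2 * Real.pi * ((w.arg / (2 * Real.pi) : ℝ) : ℂ) * Complex.I : ℂ) =
      (w.arg : ℂ) * Complex.I := by
    push_cast
    have : (Real.pi : ℂ) ≠ 0 := by exact_mod_cast Real.pi_ne_zero
    field_simp
  unfold ee
  rw [h]
  exact Complex.norm_mul_exp_arg_mul_I w

/-! ### the inverse of the exterior map -/

variable {φ : ℂ → ℂ} {K : Set ℂ} {a : ℂ}

theorem isOpen_ext : IsOpen {w : ℂ | 1 < ‖w‖} := isOpen_lt continuous_const continuous_norm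

theorem nhds_le (h : ExtMap φ K a) {w : ℂ} (hw : 1 < ‖w‖) : 𝓝 (φ w) ≤ map φ (𝓝 w) := by
  have han : AnalyticAt ℂ φ w := h.diff.analyticAt (isOpen_ext.mem_nhds hw)
  rcases han.eventually_constant_or_nhds_le_map_nhds with h1 | h1
  · exfalso
    have h2 : ∀ᶠ z in 𝓝 w, z = w := by
      filter_upwards [h1, isOpen_ext.mem_nhds hw] with z hz1 hz2
      exact h.inj hz2 hw hz1
    have h3 : ∀ᶠ z in 𝓝[≠] w, z = w := h2.filter_mono nhdsWithin_le_nhds
    have h4 : ∀ᶠ z in 𝓝[≠] w, z ≠ w := eventually_mem_nhdsWithin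
    obtain ⟨z, hz1, hz2⟩ := (h3.and h4).exists
    exact hz2 hz1
  · exact h1

theorem inv_cont (h : ExtMap φ K a) : ∃ χ : ℂ → ℂ, ContinuousOn χ Kᶜ ∧
    (∀ z ∈ Kᶜ, 1 < ‖χ z‖ ∧ φ (χ z) = z) ∧ ∀ w : ℂ, 1 < ‖w‖ → χ (φ w) = w := by
  have h1 : ∀ z : ℂ, ∃ w : ℂ, z ∈ Kᶜ → 1 < ‖w‖ ∧ φ w = z := by
    intro z
    by_cases hz : z ∈ Kᶜ
    · rw [← h.image] at hz
      obtain ⟨w, hw1, hw2⟩ := hz
      exact ⟨w, fun _ => ⟨hw1, hw2⟩⟩
    · exact ⟨0, fun h => absurd h hz⟩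
  choose χ hχ using h1
  have hmem : ∀ w : ℂ, 1 < ‖w‖ → φ w ∈ Kᶜ := by
    intro w hw
    rw [← h.image]
    exact ⟨w, hw, rfl⟩
  have hleft : ∀ w : ℂ, 1 < ‖w‖ → χ (φ w) = w := by
    intro w hw
    have h2 := hχ (φ w) (hmem w hw)
    exact h.inj h2.1 hw h2.2
  refine ⟨χ, ?_, hχ, hleft⟩
  intro z hz
  refine ContinuousAt.continuousWithinAt ?_
  obtain ⟨hw1, hw2⟩ := hχ z hz
  intro V hV
  have hV2 : V ∩ {w : ℂ | 1 < ‖w‖} ∈ 𝓝 (χ z) := inter_mem hV (isOpen_ext.mem_nhds hw1)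
  have h3 := nhds_le h hw1 (image_mem_map hV2)
  rw [hw2] at h3
  rw [mem_map]
  refine mem_of_superset h3 ?_
  rintro _ ⟨w, ⟨hwV, hw⟩, rfl⟩
  rw [mem_preimage, hleft w hw]
  exact hwV

/-! ### points of small potential are near the Julia set -/

variable {f : Polynomial ℂ}

theorem near_J (h : ExtMap φ (FK f) a) {η : ℝ} (hη : 0 < η) :
    ∃ r : ℝ, 1 < r ∧ ∀ w : ℂ, 1 < ‖w‖ → ‖w‖ < r → infDist (φ w) (FJ f) < η := by
  obtain ⟨χ, hχc, hχ, hleft⟩ := inv_cont h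
  obtain ⟨M, hM⟩ := h.bdd
  have hmem : ∀ w : ℂ, 1 < ‖w‖ → φ w ∈ (FK f)ᶜ := by
    intro w hw
    rw [← h.image]
    exact ⟨w, hw, rfl⟩
  set A : Set ℂ := closedBall 0 M ∩ ({z | η ≤ infDist z (FJ f)} ∩ (interior (FK f))ᶜ) with hA
  have hAc : IsCompact A := (isCompact_closedBall 0 M).inter_right
    ((isClosed_le continuous_const (continuous_infDist_pt _)).inter isOpen_interior.isClosed_compl)
  have hAK : A ⊆ (FK f)ᶜ := by
    rintro z ⟨-, hz1, hz2⟩ hzK
    have hzJ : z ∈ FJ f := ⟨subset_closure hzK, hz2⟩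
    have h1 : infDist z (FJ f) = 0 := infDist_zero_of_mem hzJ
    have h2 : η ≤ infDist z (FJ f) := hz1
    linarith
  have hin : ∀ w : ℂ, 1 < ‖w‖ → ‖w‖ ≤ 2 → η ≤ infDist (φ w) (FJ f) → φ w ∈ A := by
    intro w hw1 hw2 hw3
    refine ⟨?_, hw3, fun hI => hmem w hw1 (interior_subset hI)⟩
    rw [mem_closedBall, dist_zero_right]
    exact hM w hw1 hw2
  rcases A.eq_empty_or_nonempty with hAe | hAne
  · refine ⟨2, one_lt_two, fun w hw1 hw2 => ?_⟩
    by_contra hcon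
    have h1 := hin w hw1 hw2.le (not_lt.1 hcon)
    rw [hAe] at h1
    exact h1
  · obtain ⟨z0, hz0, hmin⟩ := hAc.exists_isMinOn hAne ((hχc.mono hAK).norm)
    refine ⟨min 2 ‖χ z0‖, lt_min one_lt_two (hχ z0 (hAK hz0)).1, fun w hw1 hw2 => ?_⟩
    by_contra hcon
    have h1 := hin w hw1 (hw2.le.trans (min_le_left _ _)) (not_lt.1 hcon)
    have h2 : ‖χ z0‖ ≤ ‖χ (φ w)‖ := hmin h1
    rw [hleft w hw1] at h2
    exact absurd (hw2.trans_le (min_le_right _ _)) (not_lt.2 h2)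

/-- points near the filled Julia set have small potential -/
theorem pot_small (h : ExtMap φ K a) {z : ℂ} (hz : z ∈ K) {r : ℝ} (hr : 1 < r) :
    ∃ δ : ℝ, 0 < δ ∧ ∀ w : ℂ, 1 < ‖w‖ → dist (φ w) z < δ → ‖w‖ < r := by
  have hmem : ∀ w : ℂ, 1 < ‖w‖ → φ w ∈ Kᶜ := by
    intro w hw
    rw [← h.image]
    exact ⟨w, hw, rfl⟩
  -- far away
  have ha : 0 < ‖a‖ := norm_pos_iff.2 h.ne
  have h1 : ∀ᶠ w in Bornology.cobounded ℂ, ‖a‖ / 2 < ‖φ w / w‖ :=
    h.lim.norm.eventually_const_lt (half_lt_self ha)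
  rw [(hasBasis_cobounded_norm (E := ℂ)).eventually_iff] at h1
  obtain ⟨R0, -, hR0⟩ := h1
  set R1 : ℝ := max R0 (max 1 (2 * (‖z‖ + 1) / ‖a‖)) with hR1
  have hfar : ∀ w : ℂ, R1 ≤ ‖w‖ → 1 ≤ dist (φ w) z := by
    intro w hw
    have hw0 : R0 ≤ ‖w‖ := (le_max_left _ _).trans hw
    have hw1 : 1 ≤ ‖w‖ := (le_max_left _ _).trans ((le_max_right _ _).trans hw)
    have hw2 : 2 * (‖z‖ + 1) / ‖a‖ ≤ ‖w‖ := (le_max_right _ _).trans ((le_max_right _ _).trans hw)
    have h2 := hR0 hw0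
    have hwpos : 0 < ‖w‖ := zero_lt_one.trans_le hw1
    have h3 : ‖a‖ / 2 < ‖φ w / w‖ := h2
    rw [norm_div, lt_div_iff₀ hwpos] at h3
    rw [div_le_iff₀ ha] at hw2
    rw [dist_eq_norm]
    have h4 := norm_sub_norm_le (φ w) z
    nlinarith
  have hcomp : IsCompact ({w : ℂ | r ≤ ‖w‖} ∩ closedBall 0 R1) :=
    (isCompact_closedBall 0 R1).inter_left (isClosed_le continuous_const continuous_norm)
  have hsub : {w : ℂ | r ≤ ‖w‖} ∩ closedBall 0 R1 ⊆ {w : ℂ | 1 < ‖w‖} :=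
    fun w hw => hr.trans_le hw.1
  have himg : IsCompact (φ '' ({w : ℂ | r ≤ ‖w‖} ∩ closedBall 0 R1)) :=
    hcomp.image_of_continuousOn (h.diff.continuousOn.mono hsub)
  have hz2 : z ∈ (φ '' ({w : ℂ | r ≤ ‖w‖} ∩ closedBall 0 R1))ᶜ := by
    rintro ⟨w, hw, rfl⟩
    exact hmem w (hsub hw) hz
  obtain ⟨δ, hδ, hball⟩ := Metric.isOpen_iff.1 himg.isClosed.isOpen_compl z hz2
  refine ⟨min δ 1, lt_min hδ one_pos, fun w hw1 hw2 => ?_⟩
  by_contra hcon
  have hrw : r ≤ ‖w‖ := not_lt.1 hcon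
  rcases le_total ‖w‖ R1 with hle | hle
  · refine hball (mem_ball.2 (hw2.trans_le (min_le_left _ _))) ⟨w, ⟨hrw, ?_⟩, rfl⟩
    rw [mem_closedBall, dist_zero_right]
    exact hle
  · have h5 := hfar w hle
    have h6 := hw2.trans_le (min_le_right δ 1)
    linarith

/-! ### the function `G` -/

/-- the point of potential `s` and angle `t` -/
noncomputable def G (φ : ℂ → ℂ) (s t : ℝ) : ℂ := φ ((Real.exp s : ℂ) * ee t)

theorem norm_exp_ee (s t : ℝ) : ‖(Real.exp s : ℂ) * ee t‖ = Real.exp s := by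
  rw [norm_mul, norm_ee, mul_one, Complex.norm_real, Real.norm_of_nonneg (Real.exp_pos s).le]

theorem one_lt_norm {s : ℝ} (hs : 0 < s) (t : ℝ) : 1 < ‖(Real.exp s : ℂ) * ee t‖ := by
  rw [norm_exp_ee]
  exact Real.one_lt_exp_iff.2 hs

theorem G_conj (hB : Bott f φ) {s : ℝ} (hs : 0 < s) (t : ℝ) :
    f.eval (G φ s t) = G φ (f.natDegree * s) (f.natDegree * t) := by
  unfold G
  rw [hB.conj _ (one_lt_norm hs t), mul_pow, ee_pow]
  congr 2
  rw [← Complex.ofReal_pow, ← Real.exp_nat_mul]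

theorem G_cont_t (h : ExtMap φ K a) {s : ℝ} (hs : 0 < s) : Continuous fun t => G φ s t := by
  have h1 : Continuous fun t : ℝ => (Real.exp s : ℂ) * ee t := continuous_const.mul cont_ee
  refine h.diff.continuousOn.comp_continuous h1 fun t => ?_
  exact one_lt_norm hs t

theorem G_cont_s (h : ExtMap φ K a) (t : ℝ) : ContinuousOn (fun s => G φ s t) (Ioi 0) := by
  have h1 : Continuous fun s : ℝ => (Real.exp s : ℂ) * ee t := by fun_prop
  refine h.diff.continuousOn.comp h1.continuousOn fun s hs => ?_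
  exact one_lt_norm hs t

/-- uniform continuity in `s` -/
theorem G_unif (h : ExtMap φ K a) {s₁ s₂ : ℝ} (hs : 0 < s₁) {η : ℝ} (hη : 0 < η) :
    ∃ ρ : ℝ, 0 < ρ ∧ ∀ s ∈ Icc s₁ s₂, ∀ s' ∈ Icc s₁ s₂, |s - s'| ≤ ρ →
      ∀ t, dist (G φ s t) (G φ s' t) ≤ η := by
  have hcomp : IsCompact ({w : ℂ | Real.exp s₁ ≤ ‖w‖} ∩ closedBall 0 (Real.exp s₂)) :=
    (isCompact_closedBall 0 _).inter_left (isClosed_le continuous_const continuous_norm)
  have hsub : {w : ℂ | Real.exp s₁ ≤ ‖w‖} ∩ closedBall 0 (Real.exp s₂) ⊆ {w : ℂ | 1 < ‖w‖} :=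
    fun w hw => (Real.one_lt_exp_iff.2 hs).trans_le hw.1
  have hu := hcomp.uniformContinuousOn_of_continuous (h.diff.continuousOn.mono hsub)
  rw [Metric.uniformContinuousOn_iff] at hu
  obtain ⟨δ, hδ, hφ⟩ := hu η hη
  have hu2 := (isCompact_Icc (a := s₁) (b := s₂)).uniformContinuousOn_of_continuous
    Real.continuous_exp.continuousOn
  rw [Metric.uniformContinuousOn_iff] at hu2
  obtain ⟨ρ, hρ, hexp⟩ := hu2 δ hδ
  refine ⟨ρ / 2, half_pos hρ, fun s hs1 s' hs2 hss t => ?_⟩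
  have h1 : dist s s' < ρ := by
    rw [Real.dist_eq]
    linarith
  have h2 := hexp s hs1 s' hs2 h1
  have hin : ∀ x ∈ Icc s₁ s₂, (Real.exp x : ℂ) * ee t ∈
      {w : ℂ | Real.exp s₁ ≤ ‖w‖} ∩ closedBall 0 (Real.exp s₂) := by
    intro x hx
    constructor
    · rw [mem_ofPred_eq, norm_exp_ee]
      exact Real.exp_le_exp.2 hx.1
    · rw [mem_closedBall, dist_zero_right, norm_exp_ee]
      exact Real.exp_le_exp.2 hx.2
  refine (hφ _ (hin s hs1) _ (hin s' hs2) ?_).le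
  rw [dist_eq_norm, ← sub_mul, norm_mul, norm_ee, mul_one, ← Complex.ofReal_sub, Complex.norm_real]
  exact h2

/-! ### contraction -/

variable {ε : ℝ}

theorem small_step (hL : Loc f ε) (hB : Bott f φ) (hext : ExtMap φ (FK f) a) {s₀ ρ : ℝ}
    (hs₀ : 0 < s₀) (hd : 2 ≤ f.natDegree)
    (hJ : ∀ s t : ℝ, 0 < s → s ≤ s₀ → infDist (G φ s t) (FJ f) < ε)
    (h0 : ∀ s ∈ Icc (s₀ / f.natDegree) s₀, ∀ s' ∈ Icc (s₀ / f.natDegree) s₀, |s - s'| ≤ ρ →
      ∀ t, dist (G φ s t) (G φ s' t) ≤ ε) (k : ℕ) :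
    ∀ s ∈ Icc (s₀ / (f.natDegree : ℝ) ^ (k + 1)) (s₀ / (f.natDegree : ℝ) ^ k),
    ∀ s' ∈ Icc (s₀ / (f.natDegree : ℝ) ^ (k + 1)) (s₀ / (f.natDegree : ℝ) ^ k),
      |s - s'| ≤ ρ / (f.natDegree : ℝ) ^ k →
      ∀ t, dist (G φ s t) (G φ s' t) ≤ (2 / 3 : ℝ) ^ k * ε := by
  have hd2 : (2 : ℝ) ≤ f.natDegree := by exact_mod_cast hd
  set d : ℝ := (f.natDegree : ℝ) with hdd
  have hd0 : 0 < d := by linarith
  induction k with
  | zero =>
    intro s hs s' hs' hss t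
    rw [zero_add, pow_one, pow_zero, div_one] at hs hs'
    rw [pow_zero, div_one] at hss
    rw [pow_zero, one_mul]
    exact h0 s hs s' hs' hss t
  | succ k ih =>
    intro s hs s' hs' hss t
    have hdk : 0 < d ^ (k + 1 + 1) := by positivity
    have hpos : ∀ x ∈ Icc (s₀ / d ^ (k + 1 + 1)) (s₀ / d ^ (k + 1)), 0 < x ∧ x ≤ s₀ ∧
        d * x ∈ Icc (s₀ / d ^ (k + 1)) (s₀ / d ^ k) := by
      intro x hx
      have h1 : 0 < x := (div_pos hs₀ hdk).trans_le hx.1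
      refine ⟨h1, hx.2.trans ?_, ?_, ?_⟩
      · exact div_le_self hs₀.le (one_le_pow₀ (by linarith))
      · have h2 := mul_le_mul_of_nonneg_left hx.1 hd0.le
        refine le_trans (le_of_eq ?_) h2
        rw [pow_succ d (k + 1)]
        field_simp
      · have h2 := mul_le_mul_of_nonneg_left hx.2 hd0.le
        refine h2.trans (le_of_eq ?_)
        rw [pow_succ d k]
        field_simp
    have hsub : uIcc s s' ⊆ Icc (s₀ / d ^ (k + 1 + 1)) (s₀ / d ^ (k + 1)) :=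
      uIcc_subset_Icc hs hs'
    set u : ℝ → ℝ := fun x => dist (G φ s t) (G φ x t) with hu
    have hucont : ContinuousOn u (uIcc s s') := by
      have h1 : ContinuousOn (fun x => G φ x t) (uIcc s s') := (G_cont_s hext t).mono
        fun x hx => (hpos x (hsub hx)).1
      exact (Continuous.dist (continuous_const (y := G φ s t)) continuous_id).comp_continuousOn h1
    have hkey : ∀ x ∈ uIcc s s', u x < 2 * ε → u x ≤ (2 / 3 : ℝ) ^ (k + 1) * ε := by
      intro x hx hux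
      obtain ⟨hx0, hx1, hx2⟩ := hpos x (hsub hx)
      obtain ⟨hs0, hs1, hs2⟩ := hpos s hs
      have h1 := hL.exp (G φ s t) (G φ x t) ((hJ s t hs0 hs1).trans_le (by linarith [hL.pos])) hux
      rw [G_conj hB hs0, G_conj hB hx0] at h1
      have h3 : |s - x| ≤ |s - s'| := by
        have h4 := abs_sub_left_of_mem_uIcc hx
        rw [abs_sub_comm] at h4
        rwa [abs_sub_comm s s']
      have h2 := ih (d * s) hs2 (d * x) hx2 (by
        rw [← mul_sub, abs_mul, abs_of_pos hd0]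
        have h5 := mul_le_mul_of_nonneg_left (h3.trans hss) hd0.le
        refine h5.trans (le_of_eq ?_)
        rw [pow_succ d k]
        field_simp) (d * t)
      have h6 : 3 / 2 * u x ≤ (2 / 3 : ℝ) ^ k * ε := h1.trans h2
      rw [pow_succ]
      linarith
    have hpow : (2 / 3 : ℝ) ^ (k + 1) * ε < ε := by
      have h1 : (2 / 3 : ℝ) ^ (k + 1) < 1 := pow_lt_one₀ (by norm_num) (by norm_num) (by omega)
      have := hL.pos
      nlinarith
    by_contra hcon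
    have hcon2 : (2 / 3 : ℝ) ^ (k + 1) * ε < u s' := not_le.1 hcon
    have hbig : 2 * ε ≤ u s' := by
      by_contra h1
      exact absurd (hkey s' right_mem_uIcc (not_le.1 h1)) (not_le.2 hcon2)
    have hus : u s = 0 := dist_self _
    have hmem : ε ∈ uIcc (u s) (u s') := by
      rw [hus, mem_uIcc]
      left
      have := hL.pos
      constructor <;> linarith
    obtain ⟨x, hx, hux⟩ := intermediate_value_uIcc hucont hmem
    have h1 := hkey x hx (by rw [hux]; linarith [hL.pos])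
    rw [hux] at h1
    linarith

theorem chain {g : ℝ → ℂ} {s s' c : ℝ} {N : ℕ} (hN : 0 < N)
    (hstep : ∀ x ∈ uIcc s s', ∀ y ∈ uIcc s s', |x - y| ≤ |s - s'| / N → dist (g x) (g y) ≤ c) :
    dist (g s) (g s') ≤ N * c := by
  have hN0 : (0 : ℝ) < N := by exact_mod_cast hN
  have h1 := dist_le_range_sum_dist (fun j : ℕ => g (s + (j / N : ℝ) * (s' - s))) N
  have hmem : ∀ j : ℕ, j ≤ N → s + (j / N : ℝ) * (s' - s) ∈ uIcc s s' := by
    intro j hj
    have hj1 : (j / N : ℝ) ≤ 1 := by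
      rw [div_le_one hN0]
      exact_mod_cast hj
    have hj0 : 0 ≤ (j / N : ℝ) := by positivity
    rw [mem_uIcc]
    rcases le_total s s' with h | h
    · left
      constructor <;> nlinarith
    · right
      constructor <;> nlinarith
  have h2 : ∀ j ∈ Finset.range N, dist (g (s + (j / N : ℝ) * (s' - s)))
      (g (s + (((j + 1 : ℕ) : ℝ) / N) * (s' - s))) ≤ c := by
    intro j hj
    have hj2 := Finset.mem_range.1 hj
    refine hstep _ (hmem j hj2.le) _ (hmem (j + 1) hj2) (le_of_eq ?_)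
    have h3 : s + (j / N : ℝ) * (s' - s) - (s + (((j + 1 : ℕ) : ℝ) / N) * (s' - s)) =
        (s - s') / N := by
      push_cast
      field_simp
      ring
    rw [h3, abs_div, abs_of_pos hN0]
  have h4 : g (s + (((0 : ℕ) : ℝ) / N) * (s' - s)) = g s := by
    simp
  have h5 : g (s + ((N : ℝ) / N) * (s' - s)) = g s' := by
    rw [div_self hN0.ne', one_mul, add_sub_cancel]
  rw [h4, h5] at h1
  refine h1.trans ((Finset.sum_le_sum h2).trans (le_of_eq ?_))
  rw [Finset.sum_const, Finset.card_range, nsmul_eq_mul]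

/-- the rays converge uniformly -/
theorem exists_limit (hb : Base f) (hL : Loc f ε) (hB : Bott f φ) (hext : ExtMap φ (FK f) a) :
    ∃ ψ : ℝ → ℂ, ∀ η : ℝ, 0 < η → ∃ σ : ℝ, 0 < σ ∧ ∀ s : ℝ, 0 < s → s ≤ σ → ∀ t,
      dist (G φ s t) (ψ t) < η := by
  have hd := hb.deg
  have hd2 : (2 : ℝ) ≤ f.natDegree := by exact_mod_cast hd
  obtain ⟨r, hr, hnear⟩ := near_J hext hL.pos
  set s₀ : ℝ := Real.log r / 2 with hs₀d
  have hlog : 0 < Real.log r := Real.log_pos hr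
  have hs₀ : 0 < s₀ := half_pos hlog
  have hJ : ∀ s t : ℝ, 0 < s → s ≤ s₀ → infDist (G φ s t) (FJ f) < ε := by
    intro s t hs hs2
    refine hnear _ (one_lt_norm hs t) ?_
    rw [norm_exp_ee, ← Real.lt_log_iff_exp_lt (zero_lt_one.trans hr)]
    linarith
  obtain ⟨ρ, hρ, h0⟩ := G_unif hext (s₁ := s₀ / f.natDegree) (s₂ := s₀) (by positivity) hL.pos
  have hstep := fun k => small_step hL hB hext hs₀ hd hJ h0 k
  obtain ⟨N, hN⟩ := exists_nat_gt (s₀ / ρ)
  have hN0 : (0 : ℝ) < N := (div_pos hs₀ hρ).trans hN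
  have hN1 : 0 < N := by exact_mod_cast hN0
  set d : ℝ := (f.natDegree : ℝ) with hdd
  have hd0 : 0 < d := by linarith
  have hd1 : 1 < d := by linarith
  have hmed : ∀ (k : ℕ), ∀ s ∈ Icc (s₀ / d ^ (k + 1)) (s₀ / d ^ k),
      ∀ s' ∈ Icc (s₀ / d ^ (k + 1)) (s₀ / d ^ k), ∀ t,
      dist (G φ s t) (G φ s' t) ≤ (N * ε) * (2 / 3 : ℝ) ^ k := by
    intro k s hs s' hs' t
    have hdk : 0 < d ^ k := by positivity
    have hdk1 : 0 < d ^ (k + 1) := by positivity
    have h1 := chain (g := fun x => G φ x t) (s := s) (s' := s') (c := (2 / 3 : ℝ) ^ k * ε) hN1 (by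
      intro x hx y hy hxy
      have hsub : uIcc s s' ⊆ Icc (s₀ / d ^ (k + 1)) (s₀ / d ^ k) := uIcc_subset_Icc hs hs'
      refine hstep k x (hsub hx) y (hsub hy) (hxy.trans ?_) t
      have h2 : |s - s'| ≤ s₀ / d ^ k := by
        have h3 := div_pos hs₀ hdk1
        rw [abs_le]
        constructor <;> linarith [hs.1, hs.2, hs'.1, hs'.2]
      rw [div_le_div_iff₀ hN0 hdk]
      rw [le_div_iff₀ hdk] at h2
      rw [div_lt_iff₀ hρ] at hN
      linarith)
    refine h1.trans (le_of_eq ?_)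
    ring
  have hmemk : ∀ k : ℕ, s₀ / d ^ k ∈ Icc (s₀ / d ^ (k + 1)) (s₀ / d ^ k) := by
    intro k
    refine ⟨?_, le_rfl⟩
    exact div_le_div_of_nonneg_left hs₀.le (by positivity) (pow_le_pow_right₀ hd1.le (by omega))
  have hmemk1 : ∀ k : ℕ, s₀ / d ^ (k + 1) ∈ Icc (s₀ / d ^ (k + 1)) (s₀ / d ^ k) := by
    intro k
    refine ⟨le_rfl, ?_⟩
    exact div_le_div_of_nonneg_left hs₀.le (by positivity) (pow_le_pow_right₀ hd1.le (by omega))
  have hgeo : ∀ (t : ℝ) (k : ℕ), dist (G φ (s₀ / d ^ k) t) (G φ (s₀ / d ^ (k + 1)) t) ≤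
      (N * ε) * (2 / 3 : ℝ) ^ k := fun t k => hmed k _ (hmemk k) _ (hmemk1 k) t
  have hlim : ∀ t : ℝ, ∃ z : ℂ, Tendsto (fun k : ℕ => G φ (s₀ / d ^ k) t) atTop (𝓝 z) := fun t =>
    cauchySeq_tendsto_of_complete (cauchySeq_of_le_geometric (2 / 3) (N * ε) (by norm_num) (hgeo t))
  choose ψ hψ using hlim
  refine ⟨ψ, fun η hη => ?_⟩
  have hNε : 0 < N * ε := mul_pos hN0 hL.pos
  obtain ⟨k₀, hk₀⟩ := exists_pow_lt_of_lt_one (div_pos hη (mul_pos (by norm_num : (0 : ℝ) < 4) hNε))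
    (by norm_num : (2 / 3 : ℝ) < 1)
  rw [lt_div_iff₀ (by positivity)] at hk₀
  refine ⟨s₀ / d ^ k₀, by positivity, fun s hs hs2 t => ?_⟩
  have hsle : s ≤ s₀ := hs2.trans (div_le_self hs₀.le (one_le_pow₀ hd1.le))
  have h1 : 1 ≤ s₀ / s := by rwa [one_le_div hs]
  obtain ⟨k, hk1, hk2⟩ := exists_nat_pow_near h1 hd1
  have hdk : 0 < d ^ k := by positivity
  have hdk1 : 0 < d ^ (k + 1) := by positivity
  rw [le_div_iff₀ hs] at hk1
  rw [div_lt_iff₀ hs] at hk2
  have hsmem : s ∈ Icc (s₀ / d ^ (k + 1)) (s₀ / d ^ k) := by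
    constructor
    · rw [div_le_iff₀ hdk1]
      linarith
    · rw [le_div_iff₀ hdk]
      linarith
  have hkk : k₀ ≤ k := by
    by_contra hcon
    have h2 : k + 1 ≤ k₀ := by omega
    have h3 : d ^ (k + 1) ≤ d ^ k₀ := pow_le_pow_right₀ hd1.le h2
    rw [le_div_iff₀ (by positivity)] at hs2
    nlinarith
  have h4 := hmed k s hsmem _ (hmemk k) t
  have h5 := dist_le_of_le_geometric_of_tendsto (2 / 3) (N * ε) (by norm_num) (hgeo t) (hψ t) k
  have h6 : (2 / 3 : ℝ) ^ k ≤ (2 / 3 : ℝ) ^ k₀ := pow_le_pow_of_le_one (by norm_num) (by norm_num) hkk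
  have h7 := dist_triangle (G φ s t) (G φ (s₀ / d ^ k) t) (ψ t)
  have h8 : N * ε * (2 / 3 : ℝ) ^ k / (1 - 2 / 3) = 3 * (N * ε * (2 / 3 : ℝ) ^ k) := by
    ring
  rw [h8] at h5
  nlinarith

theorem loop : S_loop := by
  intro f ε φ hb hL hB
  obtain ⟨a, hext⟩ := hB.ext
  obtain ⟨ψ, hψ⟩ := exists_limit hb hL hB hext
  have hd := hb.deg
  have hd2 : (2 : ℝ) ≤ f.natDegree := by exact_mod_cast hd
  have hlim : ∀ t : ℝ, Tendsto (fun s => G φ s t) (𝓝[>] 0) (𝓝 (ψ t)) := by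
    intro t
    rw [Metric.tendsto_nhdsWithin_nhds]
    intro η hη
    obtain ⟨σ, hσ, h⟩ := hψ η hη
    refine ⟨σ, hσ, fun {s} hs hs2 => h s hs ?_ t⟩
    rw [Real.dist_eq, sub_zero] at hs2
    exact (le_abs_self s).trans hs2.le
  have hcont : Continuous ψ := by
    rw [Metric.continuous_iff]
    intro t η hη
    obtain ⟨σ, hσ, h⟩ := hψ (η / 3) (by positivity)
    obtain ⟨δ, hδ, h2⟩ := Metric.continuous_iff.1 (G_cont_t hext hσ) t (η / 3) (by positivity)
    refine ⟨δ, hδ, fun t' ht' => ?_⟩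
    have h3 := h σ hσ le_rfl t
    have h4 := h σ hσ le_rfl t'
    have h5 := h2 t' ht'
    rw [dist_comm] at h4
    have h6 := dist_triangle (ψ t') (G φ σ t') (ψ t)
    have h7 := dist_triangle (G φ σ t') (G φ σ t) (ψ t)
    linarith
  have hper : ∀ t : ℝ, ψ (t + 1) = ψ t := by
    intro t
    refine tendsto_nhds_unique (hlim (t + 1)) ?_
    have h1 : (fun s => G φ s (t + 1)) = fun s => G φ s t := by
      funext s
      unfold G
      rw [ee_add_one]
    rw [h1]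
    exact hlim t
  have hconj : ∀ t : ℝ, f.eval (ψ t) = ψ ((f.natDegree : ℝ) * t) := by
    intro t
    have h1 : Tendsto (fun s => f.eval (G φ s t)) (𝓝[>] 0) (𝓝 (f.eval (ψ t))) :=
      (f.continuous.tendsto _).comp (hlim t)
    refine tendsto_nhds_unique h1 ?_
    have h2 : Tendsto (fun s : ℝ => (f.natDegree : ℝ) * s) (𝓝[>] 0) (𝓝[>] 0) := by
      refine tendsto_nhdsWithin_iff.2 ⟨?_, ?_⟩
      · have h3 : Tendsto (fun s : ℝ => (f.natDegree : ℝ) * s) (𝓝 0)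
            (𝓝 ((f.natDegree : ℝ) * 0)) := tendsto_id.const_mul _
        rw [mul_zero] at h3
        exact h3.mono_left nhdsWithin_le_nhds
      · filter_upwards [self_mem_nhdsWithin] with s hs
        have hd0 : (0 : ℝ) < f.natDegree := by linarith
        exact mul_pos hd0 hs
    refine ((hlim ((f.natDegree : ℝ) * t)).comp h2).congr' ?_
    filter_upwards [self_mem_nhdsWithin] with s hs
    exact (G_conj hB hs t).symm
  have hland : ∀ t : ℝ, Lands φ t (ψ t) := by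
    intro t
    unfold Lands
    have h1 : Tendsto Real.log (𝓝[>] 1) (𝓝[>] 0) := by
      refine tendsto_nhdsWithin_iff.2 ⟨?_, ?_⟩
      · have h3 := (Real.continuousAt_log one_ne_zero).tendsto
        rw [Real.log_one] at h3
        exact h3.mono_left nhdsWithin_le_nhds
      · filter_upwards [self_mem_nhdsWithin] with r hr
        exact Real.log_pos hr
    refine ((hlim t).comp h1).congr' ?_
    filter_upwards [self_mem_nhdsWithin] with r hr
    have hr0 : (0 : ℝ) < r := zero_lt_one.trans hr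
    simp only [Function.comp_apply, G]
    rw [Real.exp_log hr0]
  have hJ : ∀ t : ℝ, ψ t ∈ FJ f := by
    intro t
    have hcl : IsClosed (FJ f) := isClosed_frontier
    rw [hcl.mem_iff_infDist_zero hb.neJ]
    refine le_antisymm ?_ infDist_nonneg
    refine le_of_forall_pos_le_add fun η hη => ?_
    rw [zero_add]
    obtain ⟨r, hr, hnear⟩ := near_J hext hη
    have h1 : ∀ᶠ s in 𝓝[>] (0 : ℝ), infDist (G φ s t) (FJ f) ≤ η := by
      have h2 : Ioo (0 : ℝ) (Real.log r) ∈ 𝓝[>] (0 : ℝ) :=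
        Ioo_mem_nhdsGT (Real.log_pos hr)
      filter_upwards [h2] with s hs
      refine (hnear _ (one_lt_norm hs.1 t) ?_).le
      rw [norm_exp_ee, ← Real.lt_log_iff_exp_lt (zero_lt_one.trans hr)]
      exact hs.2
    exact le_of_tendsto (((continuous_infDist_pt (FJ f)).tendsto _).comp (hlim t)) h1
  refine ⟨ψ, hcont, hper, hconj, ?_, hland⟩
  refine Subset.antisymm ?_ ?_
  · rintro _ ⟨t, rfl⟩
    exact hJ t
  · have hcomp : IsCompact (range ψ) := by
      have hfp : Function.Periodic ψ 1 := hper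
      have h1 : range ψ = ψ '' Icc 0 1 := by
        have h2 := hfp.image_Icc one_pos 0
        rw [zero_add] at h2
        exact h2.symm
      rw [h1]
      exact isCompact_Icc.image hcont
    intro z hz
    rw [← hcomp.isClosed.closure_eq, Metric.mem_closure_iff]
    intro η hη
    obtain ⟨σ, hσ, h⟩ := hψ (η / 2) (half_pos hη)
    obtain ⟨δ, hδ, hpot⟩ := pot_small hext (hb.subJ hz) (Real.one_lt_exp_iff.2 hσ)
    have hfr : z ∈ closure (FK f)ᶜ := by
      rw [closure_compl]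
      exact hz.2
    obtain ⟨z', hz', hzz⟩ := Metric.mem_closure_iff.1 hfr (min δ (η / 2))
      (lt_min hδ (half_pos hη))
    rw [← hext.image] at hz'
    obtain ⟨w, hw, rfl⟩ := hz'
    have hw1 : 1 < ‖w‖ := hw
    have hw2 := hpot w hw1 (by
      rw [dist_comm]
      exact hzz.trans_le (min_le_left _ _))
    have hlog : 0 < Real.log ‖w‖ := Real.log_pos hw1
    have hlog2 : Real.log ‖w‖ ≤ σ := by
      rw [Real.log_le_iff_le_exp (zero_lt_one.trans hw1)]
      exact hw2.le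
    have h3 := h (Real.log ‖w‖) hlog hlog2 (w.arg / (2 * Real.pi))
    have h4 : G φ (Real.log ‖w‖) (w.arg / (2 * Real.pi)) = φ w := by
      unfold G
      rw [Real.exp_log (zero_lt_one.trans hw1), polar]
    rw [h4] at h3
    refine ⟨_, ⟨w.arg / (2 * Real.pi), rfl⟩, ?_⟩
    have h5 := hzz.trans_le (min_le_right δ (η / 2))
    have h6 := dist_triangle z (φ w) (ψ (w.arg / (2 * Real.pi)))
    linarith

end Pool.Agent.W253.QJ
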